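import Pool.Agent.helper60.XP.SpecT

/-! xp:INVB, `ψ^* Bin = Bin`. -/

set_option autoImplicit false

open Complex Metric Set Filter Topology MeasureTheory
open V3S (UF)
open XP

noncomputable section

namespace XPT

theorem INVB_joint {F : ℕ → ℂ → ℂ} {f : ℂ → ℂ} {U : Set ℂ} (hU : IsOpen U)
    (h : TendstoLocallyUniformlyOn F f UF U) {x : ℂ} (hx : x ∈ U) (hf : ContinuousAt f x) :
    Tendsto (fun p : ℕ × ℂ => F p.1 p.2) (UF ×ˢ 𝓝 x) (𝓝 (f x)) := by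
  rw [Metric.tendsto_nhds]
  intro ε hε
  obtain ⟨t, ht, h1⟩ := Metric.tendstoLocallyUniformlyOn_iff.mp h (ε / 2) (half_pos hε) x hx
  have ht' : t ∈ 𝓝 x := by rwa [hU.nhdsWithin_eq hx] at ht
  have h2 : ∀ᶠ y in 𝓝 x, dist (f y) (f x) < ε / 2 :=
    Metric.tendsto_nhds.mp hf (ε / 2) (half_pos hε)
  have h3 : ∀ᶠ y in 𝓝 x, y ∈ t ∧ dist (f y) (f x) < ε / 2 := by
    filter_upwards [ht', h2] with y h4 h5
    exact ⟨h4, h5⟩
  filter_upwards [h1.prod_mk h3] with p hp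
  obtain ⟨h4, h5, h6⟩ := hp
  have h7 := h4 p.2 h5
  rw [dist_comm] at h7
  calc dist (F p.1 p.2) (f x) ≤ dist (F p.1 p.2) (f p.2) + dist (f p.2) (f x) := dist_triangle _ _ _
    _ < ε / 2 + ε / 2 := add_lt_add h7 h6
    _ = ε := by ring

theorem INVB_sg {n : ℕ} {C A : ℝ} {D : Dat} (h : D.Good n C A) : D.sg ≠ 0 := by
  unfold Dat.sg
  exact_mod_cast (h.Rpos 0).ne'

theorem INVB_F0 {D : Dat} (h : D.sg ≠ 0) (x : ℂ) : D.F 0 x = x := by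
  unfold Dat.F Dat.xx Dat.zz
  simp only [Function.iterate_zero, id_eq, add_sub_cancel_left]
  field_simp

theorem INVB_Fd (D : Dat) (j : ℕ) : Differentiable ℂ (D.F j) := by
  have h1 : Differentiable ℂ (fun z : ℂ => D.f.eval z)^[j] := (D.f.differentiable).iterate j
  have h2 : Differentiable ℂ D.zz := by
    unfold Dat.zz
    fun_prop
  have h3 : Differentiable ℂ D.xx := by
    unfold Dat.xx
    fun_prop
  exact h3.comp (h1.comp h2)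

/-- the Lipschitz estimate for a map near a linear one. -/
theorem INVB_lip (G : ℂ → ℂ) (ρ : ℂ) (η : ℝ) (hG : DifferentiableOn ℂ G (ball 0 1)) (hρ : 1 ≤ ‖ρ‖)
    (hη : 0 < η) (hη1 : η ≤ 1 / 100) (hn : ∀ x ∈ ball (0 : ℂ) 1, ‖G x - ρ * x‖ ≤ η * ‖x‖) :
    (∀ y ∈ ball (0 : ℂ) (1 / 2), ∀ y' ∈ ball (0 : ℂ) (1 / 2), ‖y - y'‖ ≤ 2 * ‖G y - G y'‖) ∧
    ∀ y ∈ ball (0 : ℂ) (1 / 2), deriv G y ≠ 0 := by
  set E : ℂ → ℂ := fun x => G x - ρ * x with hE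
  have hEd : DifferentiableOn ℂ E (ball 0 1) := hG.sub (by fun_prop)
  have hball : ∀ x ∈ ball (0 : ℂ) (1 / 2), closedBall x (1 / 4) ⊆ ball (0 : ℂ) 1 := by
    intro x hx y hy
    rw [mem_ball_zero_iff] at hx ⊢
    rw [mem_closedBall, dist_eq_norm] at hy
    calc ‖y‖ = ‖(y - x) + x‖ := by ring_nf
      _ ≤ ‖y - x‖ + ‖x‖ := norm_add_le _ _
      _ < 1 := by linarith
  have hE' : ∀ x ∈ ball (0 : ℂ) (1 / 2), ‖deriv E x‖ ≤ 1 / 25 := by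
    intro x hx
    have h1 : DiffContOnCl ℂ E (ball x (1 / 4)) := by
      apply DifferentiableOn.diffContOnCl
      rw [closure_ball x (by norm_num : (1 / 4 : ℝ) ≠ 0)]
      exact hEd.mono (hball x hx)
    have h2 := Complex.norm_deriv_le_of_forall_mem_sphere_norm_le (by norm_num : (0 : ℝ) < 1 / 4) h1
      (C := 1 / 100) (by
        intro z hz
        have hz1 : z ∈ ball (0 : ℂ) 1 := hball x hx (sphere_subset_closedBall hz)
        have hz2 : ‖z‖ < 1 := by simpa using hz1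
        calc ‖E z‖ ≤ η * ‖z‖ := hn z hz1
          _ ≤ 1 / 100 * 1 := by
            apply mul_le_mul hη1 hz2.le (norm_nonneg _) (by norm_num)
          _ = 1 / 100 := by norm_num)
    calc ‖deriv E x‖ ≤ 1 / 100 / (1 / 4) := h2
      _ = 1 / 25 := by norm_num
  have hdiffE : ∀ x ∈ ball (0 : ℂ) (1 / 2), DifferentiableAt ℂ E x := by
    intro x hx
    refine (hEd x ?_).differentiableAt (isOpen_ball.mem_nhds ?_) <;>
    · exact ball_subset_ball (by norm_num) hx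
  have hdiffG : ∀ x ∈ ball (0 : ℂ) (1 / 2), DifferentiableAt ℂ G x := by
    intro x hx
    refine (hG x ?_).differentiableAt (isOpen_ball.mem_nhds ?_) <;>
    · exact ball_subset_ball (by norm_num) hx
  constructor
  · intro y hy y' hy'
    have h1 : ‖E y - E y'‖ ≤ 1 / 25 * ‖y - y'‖ :=
      (convex_ball (0 : ℂ) (1 / 2)).norm_image_sub_le_of_norm_deriv_le hdiffE hE' hy' hy
    have h2 : ρ * (y - y') = (G y - G y') - (E y - E y') := by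
      simp only [hE]
      ring
    have h3 : ‖ρ‖ * ‖y - y'‖ ≤ ‖G y - G y'‖ + ‖E y - E y'‖ := by
      rw [← norm_mul, h2]
      exact norm_sub_le _ _
    have h4 : ‖y - y'‖ ≤ ‖ρ‖ * ‖y - y'‖ := le_mul_of_one_le_left (norm_nonneg _) hρ
    have h5 : 0 ≤ ‖y - y'‖ := norm_nonneg _
    linarith
  · intro y hy h0
    have h1 : deriv E y = deriv G y - ρ := by
      have h2 : HasDerivAt (fun x : ℂ => ρ * x) ρ y := by
        simpa using (hasDerivAt_id y).const_mul ρ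
      exact ((hdiffG y hy).hasDerivAt.sub h2).deriv
    have h2 := hE' y hy
    rw [h1, h0, zero_sub, norm_neg] at h2
    linarith

/-- inverse branch of a map near a linear one. -/
theorem INVB_inv (hINVG : INVG_stmt) (G : ℂ → ℂ) (ρ : ℂ) (η : ℝ) (hG : DifferentiableOn ℂ G (ball 0 1))
    (hρ : 1 ≤ ‖ρ‖) (hη1 : η ≤ 1 / 100)
    (hn : ∀ x ∈ ball (0 : ℂ) 1, ‖G x - ρ * x‖ ≤ η * ‖x‖) :
    ∃ Ψ : ℂ → ℂ, DifferentiableOn ℂ Ψ (ball 0 (1 / 2)) ∧ ∀ x ∈ ball (0 : ℂ) (1 / 2),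
      G (Ψ x) = x ∧ ‖Ψ x‖ ≤ 26 / 25 * ‖x‖ := by
  have hρ0 : ρ ≠ 0 := by
    intro h
    rw [h, norm_zero] at hρ
    linarith
  have hρp : 0 < ‖ρ‖ := norm_pos_iff.mpr hρ0
  obtain ⟨Ψ₀, h1, h2, h3⟩ := hINVG (fun y => G y / ρ) (hG.div_const ρ) (by
    intro y hy
    have h4 : G y / ρ - y = (G y - ρ * y) / ρ := by
      field_simp
    rw [h4, norm_div, div_le_iff₀ hρp]
    have h5 := hn y hy
    have h6 : η * ‖y‖ ≤ 1 / 100 * ‖y‖ := mul_le_mul_of_nonneg_right hη1 (norm_nonneg _)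
    have h7 : ‖y‖ / 50 ≤ ‖y‖ / 50 * ‖ρ‖ := le_mul_of_one_le_right (by positivity) hρ
    have h8 : 0 ≤ ‖y‖ := norm_nonneg _
    linarith)
  have hmem : ∀ x ∈ ball (0 : ℂ) (1 / 2), x / ρ ∈ ball (0 : ℂ) (1 / 2) ∧ ‖x / ρ‖ ≤ ‖x‖ := by
    intro x hx
    have h4 : ‖x / ρ‖ ≤ ‖x‖ := by
      rw [norm_div]
      exact div_le_self (norm_nonneg _) hρ
    refine ⟨?_, h4⟩
    rw [mem_ball_zero_iff] at hx ⊢
    linarith
  refine ⟨fun x => Ψ₀ (x / ρ), ?_, ?_⟩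
  · apply h1.comp (by fun_prop)
    intro x hx
    exact (hmem x hx).1
  · intro x hx
    obtain ⟨h4, h5⟩ := hmem x hx
    obtain ⟨h6, h7, h8⟩ := h3 _ h4
    constructor
    · have h9 : G (Ψ₀ (x / ρ)) / ρ = x / ρ := h7
      rwa [div_left_inj' hρ0] at h9
    · calc ‖Ψ₀ (x / ρ)‖ = ‖(Ψ₀ (x / ρ) - x / ρ) + x / ρ‖ := by ring_nf
        _ ≤ ‖Ψ₀ (x / ρ) - x / ρ‖ + ‖x / ρ‖ := norm_add_le _ _
        _ ≤ ‖x / ρ‖ / 25 + ‖x / ρ‖ := by linarith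
        _ ≤ 26 / 25 * ‖x‖ := by linarith

theorem INVB_good {n : ℕ} {C A : ℝ} {D : Dat} (h : D.Good n C A) :
    (D.par D.s 1 1 1).Good n C A :=
  { hn := h.hn
    hdeg := h.hdeg
    hk := h.hk
    cyc := h.cyc
    ex := h.ex
    rho1 := h.rho1
    rho2 := h.rho2
    C1 := h.C1
    A1 := h.A1
    Rpos := h.Rpos
    mini := h.mini
    inj := h.inj
    sepr := h.sepr
    trans := h.trans
    hg := h.hg
    eng := h.eng
    rdiff := h.rdiff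
    bP := h.bP
    invi := h.invi }

/-- `B` converges jointly at the points off `Pin`. -/
theorem INVB_B {D : ℕ → Dat} (hLB : LB D) (hP : IsClosed (Pin D)) {x : ℂ} (hx : x ∈ Reg D) :
    Tendsto (fun p : ℕ × ℂ => (D p.1).B p.2) (UF ×ˢ 𝓝 x) (𝓝 (Bin D x)) := by
  have hU : IsOpen (Pin D)ᶜ := hP.isOpen_compl
  have h1 : TendstoLocallyUniformlyOn (fun m => (D m).B) (Bin D) UF (Pin D)ᶜ := by
    rw [tendstoLocallyUniformlyOn_iff_forall_isCompact hU]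
    intro K hK1 hK2
    exact hLB.conv K hK2 hK1
  exact INVB_joint hU h1 hx.1 ((hLB.diff x hx.1).differentiableAt (hU.mem_nhds hx.1)).continuousAt

/-- the function `|1 - t| - (1 - |t|)`. -/
def INVB_phi (t : ℂ) : ℝ := ‖1 - t‖ - (1 - ‖t‖)

theorem INVB_phi_cont : Continuous INVB_phi := by
  unfold INVB_phi
  fun_prop

theorem INVB_phi_nonneg (t : ℂ) : 0 ≤ INVB_phi t := by
  unfold INVB_phi
  have h1 : ‖(1 : ℂ)‖ ≤ ‖1 - t‖ + ‖t‖ := by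
    calc ‖(1 : ℂ)‖ = ‖(1 - t) + t‖ := by ring_nf
      _ ≤ ‖1 - t‖ + ‖t‖ := norm_add_le _ _
  rw [norm_one] at h1
  linarith

theorem INVB_comp {G F : ℕ → ℂ → ℂ} {x y v : ℂ}
    (h1 : Tendsto (fun p : ℕ × ℂ => F p.1 p.2) (UF ×ˢ 𝓝 y) (𝓝 x))
    (h2 : Tendsto (fun p : ℕ × ℂ => G p.1 p.2) (UF ×ˢ 𝓝 x) (𝓝 v)) :
    Tendsto (fun p : ℕ × ℂ => G p.1 (F p.1 p.2)) (UF ×ˢ 𝓝 y) (𝓝 v) := by
  have h3 : Tendsto (fun p : ℕ × ℂ => (p.1, F p.1 p.2)) (UF ×ˢ 𝓝 y) (UF ×ˢ 𝓝 x) :=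
    tendsto_fst.prodMk h1
  exact h2.comp h3

theorem INVB_pt {G : ℕ → ℂ → ℂ} {x v : ℂ}
    (h2 : Tendsto (fun p : ℕ × ℂ => G p.1 p.2) (UF ×ˢ 𝓝 x) (𝓝 v)) :
    Tendsto (fun m => G m x) UF (𝓝 v) := by
  have h1 : Tendsto (fun m : ℕ => (m, x)) UF (UF ×ˢ 𝓝 x) := tendsto_id.prodMk tendsto_const_nhds
  exact h2.comp h1

/-- the limits, for arbitrary functions. -/
theorem INVB_lim (B F : ℕ → ℂ → ℂ) (ψ : ℂ → ℂ) (b0 b1 y₀ : ℂ) (hFd : ∀ m, Differentiable ℂ (F m))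
    (hψd : DifferentiableOn ℂ ψ (ball 0 1)) (hψ : TendstoLocallyUniformlyOn F ψ UF (ball 0 1))
    (hy1 : y₀ ∈ ball (0 : ℂ) 1)
    (hB0 : Tendsto (fun p : ℕ × ℂ => B p.1 p.2) (UF ×ˢ 𝓝 y₀) (𝓝 b0))
    (hB1 : Tendsto (fun p : ℕ × ℂ => B p.1 p.2) (UF ×ˢ 𝓝 (ψ y₀)) (𝓝 b1))
    (hψ' : deriv ψ y₀ ≠ 0) (hb1 : b1 ≠ 0) (κ : ℝ)
    (hκ : κ < INVB_phi (b0 / (deriv ψ y₀ ^ 2 * b1))) :
    (∃ ε₁ > (0 : ℝ), ∀ᶠ m in UF, ∀ y ∈ ball y₀ ε₁,
      κ < INVB_phi (B m y / (deriv (F m) y ^ 2 * B m (F m y)))) ∧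
    (Tendsto (fun m => F m y₀) UF (𝓝 (ψ y₀))) ∧ Tendsto (fun m => B m (ψ y₀)) UF (𝓝 b1) := by
  have hT1 : Tendsto (fun p : ℕ × ℂ => F p.1 p.2) (UF ×ˢ 𝓝 y₀) (𝓝 (ψ y₀)) :=
    INVB_joint isOpen_ball hψ hy1
      ((hψd y₀ hy1).differentiableAt (isOpen_ball.mem_nhds hy1)).continuousAt
  have hψ2 : TendstoLocallyUniformlyOn (fun m => deriv (F m)) (deriv ψ) UF (ball 0 1) :=
    hψ.deriv (Eventually.of_forall fun m => (hFd m).differentiableOn) isOpen_ball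
  have hψdd : DifferentiableOn ℂ (deriv ψ) (ball 0 1) := hψd.deriv isOpen_ball
  have hT2 : Tendsto (fun p : ℕ × ℂ => deriv (F p.1) p.2) (UF ×ˢ 𝓝 y₀) (𝓝 (deriv ψ y₀)) :=
    INVB_joint isOpen_ball hψ2 hy1
      ((hψdd y₀ hy1).differentiableAt (isOpen_ball.mem_nhds hy1)).continuousAt
  have hT4 : Tendsto (fun p : ℕ × ℂ => B p.1 (F p.1 p.2)) (UF ×ˢ 𝓝 y₀) (𝓝 b1) :=
    INVB_comp hT1 hB1
  have hden : deriv ψ y₀ ^ 2 * b1 ≠ 0 := mul_ne_zero (pow_ne_zero 2 hψ') hb1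
  have hT5 : Tendsto (fun p : ℕ × ℂ => B p.1 p.2 / (deriv (F p.1) p.2 ^ 2 * B p.1 (F p.1 p.2)))
      (UF ×ˢ 𝓝 y₀) (𝓝 (b0 / (deriv ψ y₀ ^ 2 * b1))) := hB0.div ((hT2.pow 2).mul hT4) hden
  have hT6 : ∀ᶠ p : ℕ × ℂ in UF ×ˢ 𝓝 y₀,
      κ < INVB_phi (B p.1 p.2 / (deriv (F p.1) p.2 ^ 2 * B p.1 (F p.1 p.2))) := by
    have h1 := (INVB_phi_cont.tendsto (b0 / (deriv ψ y₀ ^ 2 * b1))).comp hT5
    exact h1.eventually (lt_mem_nhds hκ)
  obtain ⟨pa, hpa, pb, hpb, hpab⟩ := eventually_prod_iff.mp hT6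
  obtain ⟨ε₁, hε₁, hball⟩ := Metric.eventually_nhds_iff_ball.mp hpb
  refine ⟨⟨ε₁, hε₁, ?_⟩, INVB_pt hT1, INVB_pt hB1⟩
  filter_upwards [hpa] with m hm y hy
  exact hpab hm (hball y hy)

/-- the main step: one point. -/
theorem INVB_key (hSTC : STC_stmt) (hTAX : TAX_stmt) (hCHX : CHX_stmt) (hINVG : INVG_stmt)
    (n : ℕ) (C η : ℝ) (ζ : ℂ) (D : ℕ → Dat) (ψ : ℂ → ℂ) (c CK : ℝ) (hSeq : Seq n C D)
    (hB : SeqB η ζ D) (hs : ∀ m, 0 < (D m).s ∧ (D m).s ≤ 1) (hLB : LB D) (hP : IsClosed (Pin D))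
    (hψd : DifferentiableOn ℂ ψ (ball 0 1))
    (hψ : TendstoLocallyUniformlyOn (fun m => (D m).F (D m).k) ψ UF (ball 0 1))
    (hDis : ∀ m, Dis ((D m).par (D m).s 1 1 1) c CK) (y₀ : ℂ) (hy0 : ‖y₀‖ < c / 8)
    (hx0 : ‖ψ y₀‖ < c / 4) (hyR : y₀ ∈ Reg D) (hxR : ψ y₀ ∈ Reg D) (hψ' : deriv ψ y₀ ≠ 0) :
    INVB_phi (Bin D y₀ / (deriv ψ y₀ ^ 2 * Bin D (ψ y₀))) = 0 := by
  obtain ⟨A, hA, hG⟩ := hSeq.good
  have hcpos : 0 < c := (hDis 0).pos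
  have hc4 : c ≤ 1 / 4 := (hDis 0).le
  set x₀ : ℂ := ψ y₀ with hx₀
  set ts : ℂ := Bin D y₀ / (deriv ψ y₀ ^ 2 * Bin D x₀) with hts
  by_contra hne
  have hpos : 0 < INVB_phi ts := lt_of_le_of_ne (INVB_phi_nonneg ts) (Ne.symm hne)
  set κ : ℝ := INVB_phi ts / 2 with hκ
  have hκpos : 0 < κ := half_pos hpos
  -- joint limits
  have hy1 : y₀ ∈ ball (0 : ℂ) 1 := by
    rw [mem_ball_zero_iff]
    linarith
  obtain ⟨⟨ε₁, hε₁, hpa⟩, hlimF, hlimB⟩ := INVB_lim (fun m => (D m).B) (fun m => (D m).F (D m).k) ψ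
    (Bin D y₀) (Bin D x₀) y₀ (fun m => INVB_Fd (D m) (D m).k) hψd hψ hy1 (INVB_B hLB hP hyR)
    (INVB_B hLB hP hxR) hψ' hxR.2 κ (by linarith)
  set ρ' : ℝ := ε₁ / 8 with hρ'
  have hρ'pos : 0 < ρ' := by positivity
  -- the chart
  obtain ⟨r, hr, C₂, hC₂, hch⟩ := hCHX n C D hSeq hLB x₀ hxR (c / 4) (by positivity)
  -- lower bound of B at x₀
  set κ₀ : ℝ := ‖Bin D x₀‖ / 2 with hκ₀
  have hκ₀pos : 0 < κ₀ := half_pos (norm_pos_iff.mpr hxR.2)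
  have hBx : ∀ᶠ m in UF, κ₀ < ‖(D m).B x₀‖ := by
    have h2 : Tendsto (fun m => ‖(D m).B x₀‖) UF (𝓝 ‖Bin D x₀‖) := hlimB.norm
    exact h2.eventually (lt_mem_nhds (by
      have := norm_pos_iff.mpr hxR.2
      linarith))
  have hFy : ∀ᶠ m in UF, ‖(D m).F (D m).k y₀ - x₀‖ < ρ' := by
    have h3 := Metric.tendsto_nhds.mp hlimF ρ' hρ'pos
    filter_upwards [h3] with m hm
    rwa [dist_eq_norm] at hm
  -- the radius
  set M : ℝ := 1 / κ₀ + 1 with hM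
  have hMpos : 0 < M := by positivity
  have hM2 : 1 ≤ M ^ 2 * κ₀ := by
    have h1 : M * κ₀ = 1 + κ₀ := by
      rw [hM]
      field_simp
    have h2 : M ^ 2 * κ₀ = M * (M * κ₀) := by ring
    rw [h2, h1]
    have h3 : 1 ≤ M := by
      rw [hM]
      have : 0 < 1 / κ₀ := by positivity
      linarith
    nlinarith
  set r' : ℝ := min (2 * r) (ρ' / (2 * M)) with hr'
  have hr'pos : 0 < r' := lt_min (by positivity) (by positivity)
  have hvol : 0 < ENNReal.ofReal κ * volume (ball (0 : ℂ) r') := by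
    apply ENNReal.mul_pos
    · simpa using hκpos
    · exact (measure_ball_pos volume (0 : ℂ) hr'pos).ne'
  have hEn : ∀ᶠ m in UF, ENNReal.ofReal ((D m).E) < ENNReal.ofReal κ * volume (ball (0 : ℂ) r') := by
    have h1 : Tendsto (fun m => ENNReal.ofReal ((D m).E)) UF (𝓝 (ENNReal.ofReal 0)) :=
      ENNReal.tendsto_ofReal (hSeq.E0.mono_left V3S.UF_le)
    rw [ENNReal.ofReal_zero] at h1
    exact h1.eventually (gt_mem_nhds hvol)
  obtain ⟨m, hm1, hm2, hm3, ⟨χ, hm4, hm5, hm6, hm7, hm8⟩, hm9⟩ :=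
    (hpa.and (hBx.and (hFy.and (hch.and hEn)))).exists
  -- one datum
  have hGm := hG m
  have hsg : (D m).sg ≠ 0 := INVB_sg hGm
  have hGm1 : ((D m).par (D m).s 1 1 1).Good n C (A m) := INVB_good hGm
  have hrho1 : 1 ≤ ‖PPS.rho (D m).f (D m).b‖ := hGm.rho1.le
  have hFd : Differentiable ℂ ((D m).F (D m).k) := INVB_Fd (D m) (D m).k
  obtain ⟨hlip, hder⟩ := INVB_lip ((D m).F (D m).k) (PPS.rho (D m).f (D m).b) η hFd.differentiableOn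
    hrho1 hB.eta.1 hB.eta.2 (hB.gb m).near
  obtain ⟨Ψ, hΨd, hΨ⟩ := INVB_inv hINVG ((D m).F (D m).k) (PPS.rho (D m).f (D m).b) η
    hFd.differentiableOn hrho1 hB.eta.2 (hB.gb m).near
  have hsub : ∀ x ∈ ball x₀ (c / 4), ‖x‖ < c / 2 := by
    intro x hx
    rw [mem_ball, dist_eq_norm] at hx
    calc ‖x‖ = ‖(x - x₀) + x₀‖ := by ring_nf
      _ ≤ ‖x - x₀‖ + ‖x₀‖ := norm_add_le _ _
      _ < c / 2 := by linarith
  have hsub2 : ball x₀ (c / 4) ⊆ ball (0 : ℂ) (1 / 2) := by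
    intro x hx
    rw [mem_ball_zero_iff]
    have := hsub x hx
    linarith
  have hK : ((D m).par (D m).s 1 1 1).K = (D m).k := by
    show 1 * (D m).k = (D m).k
    rw [one_mul]
  have hFeq : ∀ j, ((D m).par (D m).s 1 1 1).F j = (D m).F j := fun j => rfl
  have hSt : St ((D m).par (D m).s 1 1 1) c x₀ (c / 4) r χ Ψ := by
    refine ⟨(hs m).1, (hs m).2, le_refl 1, hr, hΨd.mono hsub2, ?_, ?_, hm4, hm5, hm6, hm7⟩
    · intro x hx
      rw [hK, hFeq]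
      exact (hΨ x (hsub2 hx)).1
    · intro i hi x hx
      have hi1 : i ≤ 1 := hi
      have hx2 := hsub x hx
      rw [hFeq]
      interval_cases i
      · have h1 : (D m).F (0 * (D m).k) (Ψ x) = Ψ x := by
          rw [zero_mul]
          exact INVB_F0 hsg _
        show (D m).F (0 * (D m).k) (Ψ x) ∈ ball (0 : ℂ) c
        rw [h1, mem_ball_zero_iff]
        have h2 := (hΨ x (hsub2 hx)).2
        linarith [norm_nonneg x]
      · show (D m).F (1 * (D m).k) (Ψ x) ∈ ball (0 : ℂ) c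
        rw [one_mul, (hΨ x (hsub2 hx)).1, mem_ball_zero_iff]
        linarith [norm_nonneg x]
  have hstc := (hSTC n C (A m) c CK _ hGm1 (hDis m) x₀ (c / 4) r χ Ψ hSt).2
  have htax := hTAX n C (A m) c _ hGm1 x₀ (c / 4) r χ Ψ hSt
  -- the chart is of size `|sg|`
  have h0mem : (0 : ℂ) ∈ ball (0 : ℂ) (2 * r) := mem_ball_self (by positivity)
  have hchi0 : ‖deriv χ 0‖ ≤ M * ‖(D m).sg‖ := by
    have h1 : deriv χ 0 ^ 2 * (D m).B x₀ = (D m).sg ^ 2 := by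
      have h2 := hm4.eq 0 h0mem
      rw [hm5] at h2
      unfold Dat.B
      calc deriv χ 0 ^ 2 * ((D m).sg ^ 2 * (D m).H ((D m).zz x₀))
          = (D m).sg ^ 2 * (deriv χ 0 ^ 2 * (D m).H ((D m).zz x₀)) := by ring
        _ = (D m).sg ^ 2 := by rw [h2, mul_one]
    have h2 : ‖deriv χ 0‖ ^ 2 * ‖(D m).B x₀‖ = ‖(D m).sg‖ ^ 2 := by
      rw [← norm_pow, ← norm_mul, h1, norm_pow]
    have h3 : ‖deriv χ 0‖ ^ 2 * κ₀ ≤ ‖(D m).sg‖ ^ 2 := by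
      rw [← h2]
      exact mul_le_mul_of_nonneg_left hm2.le (by positivity)
    have h4 : ‖deriv χ 0‖ ^ 2 ≤ (M * ‖(D m).sg‖) ^ 2 := by
      have h5 : ‖deriv χ 0‖ ^ 2 ≤ ‖deriv χ 0‖ ^ 2 * (M ^ 2 * κ₀) :=
        le_mul_of_one_le_right (by positivity) hM2
      calc ‖deriv χ 0‖ ^ 2 ≤ ‖deriv χ 0‖ ^ 2 * (M ^ 2 * κ₀) := h5
        _ = M ^ 2 * (‖deriv χ 0‖ ^ 2 * κ₀) := by ring
        _ ≤ M ^ 2 * ‖(D m).sg‖ ^ 2 := mul_le_mul_of_nonneg_left h3 (by positivity)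
        _ = (M * ‖(D m).sg‖) ^ 2 := by ring
    exact (sq_le_sq₀ (norm_nonneg _) (by positivity)).mp h4
  have hxx : ∀ w ∈ ball (0 : ℂ) r', ‖(D m).xx (χ w) - x₀‖ < ρ' := by
    intro w hw
    rw [mem_ball_zero_iff] at hw
    have hw2 : w ∈ ball (0 : ℂ) (2 * r) := by
      rw [mem_ball_zero_iff]
      exact lt_of_lt_of_le hw (min_le_left _ _)
    have hw3 : ‖w‖ < ρ' / (2 * M) := lt_of_lt_of_le hw (min_le_right _ _)
    have h1 : ‖χ w - χ 0‖ ≤ 11 / 10 * ‖deriv χ 0‖ * ‖w - 0‖ := by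
      apply (convex_ball (0 : ℂ) (2 * r)).norm_image_sub_le_of_norm_deriv_le (f := χ) _ _ h0mem hw2
      · intro z hz
        exact (hm4.diff z hz).differentiableAt (isOpen_ball.mem_nhds hz)
      · intro z hz
        calc ‖deriv χ z‖ = ‖(deriv χ z - deriv χ 0) + deriv χ 0‖ := by ring_nf
          _ ≤ ‖deriv χ z - deriv χ 0‖ + ‖deriv χ 0‖ := norm_add_le _ _
          _ ≤ ‖deriv χ 0‖ / 10 + ‖deriv χ 0‖ := by linarith [hm6 z hz]
          _ = 11 / 10 * ‖deriv χ 0‖ := by ring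
    rw [sub_zero] at h1
    have h2 : (D m).xx (χ w) - x₀ = (χ w - χ 0) / (D m).sg := by
      rw [hm5]
      unfold Dat.xx Dat.zz
      field_simp
      ring
    have hsgp : 0 < ‖(D m).sg‖ := norm_pos_iff.mpr hsg
    rw [h2, norm_div, div_lt_iff₀ hsgp]
    calc ‖χ w - χ 0‖ ≤ 11 / 10 * ‖deriv χ 0‖ * ‖w‖ := h1
      _ ≤ 11 / 10 * (M * ‖(D m).sg‖) * ‖w‖ := by gcongr
      _ ≤ 11 / 10 * (M * ‖(D m).sg‖) * (ρ' / (2 * M)) := by gcongr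
      _ = 11 / 20 * ρ' * ‖(D m).sg‖ := by
        field_simp
        ring
      _ < ρ' * ‖(D m).sg‖ := by
        apply mul_lt_mul_of_pos_right _ hsgp
        linarith
  -- lower bound of the integrand
  have hlow : ∀ w ∈ ball (0 : ℂ) r', κ ≤
      ‖1 - XPS.tau ((D m).par (D m).s 1 1 1).H (tw ((D m).par (D m).s 1 1 1) Ψ χ)
        ((D m).par (D m).s 1 1 1).K w‖ -
      (1 - ‖XPS.tau ((D m).par (D m).s 1 1 1).H (tw ((D m).par (D m).s 1 1 1) Ψ χ)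
        ((D m).par (D m).s 1 1 1).K w‖) := by
    intro w hw
    have hw2 : w ∈ ball (0 : ℂ) (2 * r) := ball_subset_ball (min_le_left _ _) hw
    rw [htax w hw2]
    show κ ≤ INVB_phi (deriv Ψ ((D m).xx (χ w)) ^ 2 * (D m).B (Ψ ((D m).xx (χ w))) /
      (D m).B ((D m).xx (χ w)))
    set x : ℂ := (D m).xx (χ w) with hx
    have hxm : x ∈ ball x₀ (c / 4) := hm7 w hw2
    have hxm2 : x ∈ ball (0 : ℂ) (1 / 2) := hsub2 hxm
    have hxc := hsub x hxm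
    have hxx0 : ‖x - x₀‖ < ρ' := hxx w hw
    obtain ⟨hF1, hF2⟩ := hΨ x hxm2
    have hym : Ψ x ∈ ball (0 : ℂ) (1 / 2) := by
      rw [mem_ball_zero_iff]
      linarith [norm_nonneg x]
    have hy0m : y₀ ∈ ball (0 : ℂ) (1 / 2) := by
      rw [mem_ball_zero_iff]
      linarith
    have hdist : ‖Ψ x - y₀‖ < ε₁ := by
      have h1 := hlip (Ψ x) hym y₀ hy0m
      rw [hF1] at h1
      have h2 : ‖x - (D m).F (D m).k y₀‖ ≤ ‖x - x₀‖ + ‖(D m).F (D m).k y₀ - x₀‖ := by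
        calc ‖x - (D m).F (D m).k y₀‖ = ‖(x - x₀) - ((D m).F (D m).k y₀ - x₀)‖ := by ring_nf
          _ ≤ ‖x - x₀‖ + ‖(D m).F (D m).k y₀ - x₀‖ := norm_sub_le _ _
      calc ‖Ψ x - y₀‖ ≤ 2 * ‖x - (D m).F (D m).k y₀‖ := h1
        _ < 2 * (ρ' + ρ') := by linarith
        _ = ε₁ / 2 := by
          rw [hρ']
          ring
        _ < ε₁ := by linarith
    have hfin := hm1 (Ψ x) (by rwa [mem_ball, dist_eq_norm])
    -- derivative of the inverse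
    have hch : deriv ((D m).F (D m).k) (Ψ x) * deriv Ψ x = 1 := by
      have h1 : HasDerivAt Ψ (deriv Ψ x) x :=
        ((hΨd x hxm2).differentiableAt (isOpen_ball.mem_nhds hxm2)).hasDerivAt
      have h2 : HasDerivAt (fun z => (D m).F (D m).k (Ψ z))
          (deriv ((D m).F (D m).k) (Ψ x) * deriv Ψ x) x :=
        (hFd (Ψ x)).hasDerivAt.comp x h1
      have h3 : (fun z => (D m).F (D m).k (Ψ z)) =ᶠ[𝓝 x] fun z => z := by
        filter_upwards [isOpen_ball.mem_nhds hxm2] with z hz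
        exact (hΨ z hz).1
      have h4 : HasDerivAt (fun z : ℂ => z) 1 x := hasDerivAt_id x
      exact (h2.congr_of_eventuallyEq h3.symm).unique h4
    have hd0 : deriv ((D m).F (D m).k) (Ψ x) ≠ 0 := hder (Ψ x) hym
    have hcalc : deriv Ψ x ^ 2 * (D m).B (Ψ x) / (D m).B x =
        (D m).B (Ψ x) / (deriv ((D m).F (D m).k) (Ψ x) ^ 2 * (D m).B ((D m).F (D m).k (Ψ x))) := by
      rw [hF1]
      have h1 : deriv Ψ x = (deriv ((D m).F (D m).k) (Ψ x))⁻¹ := by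
        rw [eq_comm, inv_eq_iff_eq_inv, eq_comm]
        exact inv_eq_of_mul_eq_one_left hch
      rw [h1, div_mul_eq_div_div, inv_pow]
      congr 1
      rw [div_eq_inv_mul]
    rw [hcalc]
    exact hfin.le
  -- contradiction
  have h1 : ENNReal.ofReal κ * volume (ball (0 : ℂ) r') ≤ ENNReal.ofReal ((D m).E) := by
    calc ENNReal.ofReal κ * volume (ball (0 : ℂ) r') = ∫⁻ _w in ball (0 : ℂ) r', ENNReal.ofReal κ := by
          rw [setLIntegral_const]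
      _ ≤ ∫⁻ w in ball (0 : ℂ) r', ENNReal.ofReal
          (‖1 - XPS.tau ((D m).par (D m).s 1 1 1).H (tw ((D m).par (D m).s 1 1 1) Ψ χ)
            ((D m).par (D m).s 1 1 1).K w‖ -
          (1 - ‖XPS.tau ((D m).par (D m).s 1 1 1).H (tw ((D m).par (D m).s 1 1 1) Ψ χ)
            ((D m).par (D m).s 1 1 1).K w‖)) := by
          apply setLIntegral_mono' measurableSet_ball
          intro w hw
          exact ENNReal.ofReal_le_ofReal (hlow w hw)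
      _ ≤ ∫⁻ w in ball (0 : ℂ) (2 * r), ENNReal.ofReal
          (‖1 - XPS.tau ((D m).par (D m).s 1 1 1).H (tw ((D m).par (D m).s 1 1 1) Ψ χ)
            ((D m).par (D m).s 1 1 1).K w‖ -
          (1 - ‖XPS.tau ((D m).par (D m).s 1 1 1).H (tw ((D m).par (D m).s 1 1 1) Ψ χ)
            ((D m).par (D m).s 1 1 1).K w‖)) :=
          lintegral_mono_set (ball_subset_ball (min_le_left _ _))
      _ ≤ ENNReal.ofReal (((1 : ℕ) : ℝ) * (D m).E) := hstc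
      _ = ENNReal.ofReal ((D m).E) := by
          rw [Nat.cast_one, one_mul]
  exact absurd (lt_of_lt_of_le hm9 h1) (lt_irrefl _)

theorem INVB (hDIS : DIS_stmt) (hSTC : STC_stmt) (hTAX : TAX_stmt) (hCHX : CHX_stmt)
    (hBCV : BCV_stmt) (hINVG : INVG_stmt) (hRLT : RLT_stmt) : INVB_stmt := by
  intro n C η ζ D ψ hC hSeq hB hs hLB hψd hψ hψ0 hψ' hψn
  obtain ⟨c, CK, hD⟩ := hDIS C hC
  obtain ⟨A, hA, hG⟩ := hSeq.good
  have hDis : ∀ m, Dis ((D m).par (D m).s 1 1 1) c CK := fun m => hD n (A m) _ (INVB_good (hG m))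
  have hcpos : 0 < c := (hDis 0).pos
  have hc4 : c ≤ 1 / 4 := (hDis 0).le
  obtain ⟨hReg, hP, -⟩ := hBCV n C D hSeq hLB
  obtain ⟨d, E, hd, hE, hE0, hBE⟩ := hLB.zero
  have hacc := hLB.acc 0
  rw [eventually_nhdsWithin_iff, Metric.eventually_nhds_iff_ball] at hacc
  obtain ⟨δ₀, hδ₀, hacc⟩ := hacc
  set δ : ℝ := min δ₀ (c / 4) with hδ
  have hδpos : 0 < δ := lt_min hδ₀ (by positivity)
  have hδ1 : δ ≤ δ₀ := min_le_left _ _
  have hδ2 : δ ≤ c / 4 := min_le_right _ _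
  have hreg : ∀ x : ℂ, ‖x‖ < δ → x ≠ 0 → x ∈ Reg D := by
    intro x hx hx0
    exact hacc x (by rw [mem_ball_zero_iff]; linarith) hx0
  have hζ : (1 : ℝ) ≤ ‖ζ‖ := hB.zeta.1.ge
  obtain ⟨hlip, hder⟩ := INVB_lip ψ ζ η hψd hζ hB.eta.1 hB.eta.2 hψn
  apply hRLT (Bin D) E ψ d ζ (δ / 4) (by positivity) hE hE0 hBE
    (hψd.mono (ball_subset_ball (by linarith))) hψ0 hψ' hB.zeta.1
  intro y hy hy0
  rw [mem_ball_zero_iff] at hy
  have hyp : 0 < ‖y‖ := norm_pos_iff.mpr hy0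
  have hy1 : y ∈ ball (0 : ℂ) 1 := by
    rw [mem_ball_zero_iff]
    linarith
  have hy2 : y ∈ ball (0 : ℂ) (1 / 2) := by
    rw [mem_ball_zero_iff]
    linarith
  have hψy : ‖ψ y - ζ * y‖ ≤ 1 / 100 * ‖y‖ :=
    le_trans (hψn y hy1) (mul_le_mul_of_nonneg_right hB.eta.2 (norm_nonneg _))
  have hζy : ‖ζ * y‖ = ‖y‖ := by rw [norm_mul, hB.zeta.1, one_mul]
  have hup : ‖ψ y‖ ≤ 2 * ‖y‖ := by
    calc ‖ψ y‖ = ‖(ψ y - ζ * y) + ζ * y‖ := by ring_nf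
      _ ≤ ‖ψ y - ζ * y‖ + ‖ζ * y‖ := norm_add_le _ _
      _ ≤ 2 * ‖y‖ := by linarith
  have hlo : ψ y ≠ 0 := by
    intro h
    rw [h, zero_sub, norm_neg, hζy] at hψy
    linarith
  have hyR : y ∈ Reg D := hreg y (by linarith) hy0
  have hxR : ψ y ∈ Reg D := hreg (ψ y) (by linarith) hlo
  have hU : IsOpen (Pin D)ᶜ := hP.isOpen_compl
  have hkey := INVB_key hSTC hTAX hCHX hINVG n C η ζ D ψ c CK hSeq hB hs hLB hP hψd hψ hDis y
    (by linarith) (by linarith) hyR hxR (hder y hy2)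
  refine ⟨(hLB.diff y hyR.1).differentiableAt (hU.mem_nhds hyR.1), hyR.2,
    (hLB.diff _ hxR.1).differentiableAt (hU.mem_nhds hxR.1), hxR.2, hder y hy2, ?_⟩
  unfold INVB_phi at hkey
  linarith

end XPT
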